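import Pool.Agent.H.MP_8a71fe_al.A

set_option autoImplicit false

namespace Pool.Agent.Results.MP_f65b1b_al.Yes

open Finset Module Pool.Agent.HShift

/-- The total Betti number: the sum of the multigraded ones. -/
noncomputable def tb {n : ℕ} {K : Type} [Field K] (J : Ideal (MvPolynomial (Fin n) K)) (i : ℕ) :
    ℕ := ∑ᶠ a, betti J i a

theorem result (n : ℕ) (B : Finset (Fin n →₀ ℕ)) (i : ℕ) :
    {s : ℕ → ℕ | ∃ (p : ℕ) (_ : Fact p.Prime),
      s = fun h => tb (mi (ZMod p) (B : Set (Fin n →₀ ℕ)) ^ (h + 1)) i}.Finite := by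
  classical
  let N := fun Δ : Finset (Fin n) → Prop => Nat.card {F | Δ F ∧ #F = i}
  refine ((Set.Finite.pi' fun Δ => Set.finite_Iic (N Δ)).image fun f h =>
    ∑ᶠ a, f (Dl (Sm B (h + 1)) a)).subset ?_
  rintro _ ⟨p, _, rfl⟩
  refine ⟨fun Δ => N Δ - (rk (ZMod p) Δ i + rk (ZMod p) Δ (i + 1)), fun Δ => Nat.sub_le _ _,
    funext fun h => finsum_congr fun a => ?_⟩
  rw [mi, span_pow]
  exact (Nat.eq_sub_of_add_eq betti_add).symm

end Pool.Agent.Results.MP_f65b1b_al.Yes
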